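import Mathlib
import Pool.Agent.SND.Z8

/-!
# MP_d15cab_pr, Q1: the total amount of sand satisfies the central limit theorem

The definitions of the sandpile model (`Site`, `Adj`, `Config`, `Stable`, `topple`, `Step`,
`StabilisesTo`, `Recurrent`, `total`, `recSet`) are in `Pool/Agent/SND/Model.lean`.
-/

set_option autoImplicit false

open MeasureTheory ProbabilityTheory Filter Topology SND

namespace Pool.Agent.Results.MP_d15cab_pr.TotalSandCLT

/-- Let `η` be a uniformly random recurrent configuration of the abelian sandpile on the `n × n`
box (wired boundary) and `S_n = total η` its total amount of sand. Then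
`(S_n - E S_n) / √(Var S_n)` converges in distribution to a standard normal law as `n → ∞`;
equivalently, its distribution function converges pointwise to that of the normal law. -/
theorem result :
    TendstoInDistribution
      (fun (n : ℕ) (η : Config n) =>
        ((total η : ℝ) - ∫ ζ : Config n, (total ζ : ℝ) ∂(uniformOn (recSet n))) /
          Real.sqrt (Var[fun ζ : Config n => (total ζ : ℝ); uniformOn (recSet n)]))
      atTop (id : ℝ → ℝ) (fun n => uniformOn (recSet n)) (gaussianReal 0 1) ∧
    ∀ x : ℝ, Tendsto
      (fun n : ℕ => (uniformOn (recSet n)).real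
        {η : Config n |
          ((total η : ℝ) - ∫ ζ : Config n, (total ζ : ℝ) ∂(uniformOn (recSet n))) /
            Real.sqrt (Var[fun ζ : Config n => (total ζ : ℝ); uniformOn (recSet n)]) ≤ x})
      atTop (𝓝 ((gaussianReal 0 1).real (Set.Iic x))) := by
  have h : TendstoInDistribution
      (fun (n : ℕ) (η : Config n) =>
        ((total η : ℝ) - ∫ ζ : Config n, (total ζ : ℝ) ∂(uniformOn (recSet n))) /
          Real.sqrt (Var[fun ζ : Config n => (total ζ : ℝ); uniformOn (recSet n)]))
      atTop (id : ℝ → ℝ) (fun n => uniformOn (recSet n)) (gaussianReal 0 1) := clt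
  refine ⟨h, fun x => ?_⟩
  have h1 := ProbabilityMeasure.tendsto_measure_of_null_frontier_of_tendsto' h.tendsto
    (E := Set.Iic x) (by
      simp only [ProbabilityMeasure.coe_mk, Measure.map_id, frontier_Iic]
      haveI := noAtoms_gaussianReal (μ := 0) (v := 1) (by norm_num)
      exact measure_singleton x)
  simp only [ProbabilityMeasure.coe_mk, Measure.map_id] at h1
  have h2 := (ENNReal.tendsto_toReal (measure_ne_top (gaussianReal 0 1) (Set.Iic x))).comp h1
  refine h2.congr (fun n => ?_)
  simp only [Function.comp_apply]
  rw [Measure.map_apply (Measurable.of_discrete) measurableSet_Iic]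
  rfl

end Pool.Agent.Results.MP_d15cab_pr.TotalSandCLT
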